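import Mathlib
import Pool.Agent.W_2411c4_h59.Defs

/-! Weak immersions and the labelled weak immersion theorem for graphs of bounded degree. -/

set_option autoImplicit false

namespace Pool.Agent.W2411wi

open Pool.Agent.W2411c4

/-- A weak immersion of `H` in `G`: distinct vertices go to distinct vertices; the edge `e` goes to a
walk without repeated vertices that joins the images of the ends of `e`; the paths of different edges
have no common edge. -/
structure WeakImmersion (H G : MGraph) where
  /-- the image of a vertex -/
  η : H.V → G.V
  inj : Function.Injective η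
  /-- first vertex of the path of an edge -/
  src : H.E → G.V
  /-- last vertex of the path of an edge -/
  dst : H.E → G.V
  /-- the path of an edge -/
  path : ∀ e, Walk G (src e) (dst e)
  ends_eq : ∀ e, s(src e, dst e) = (H.ends e).map η
  isPath : ∀ e, (path e).verts.Nodup
  disj : ∀ e f, e ≠ f → ∀ g, g ∈ (path e).edges → g ∉ (path f).edges

/-- The relation `r` is a well-quasi-order. -/
def IsWqo {Ω : Type} (r : Ω → Ω → Prop) : Prop :=
  (∀ x, r x x) ∧ (∀ x y z, r x y → r y z → r x z) ∧ ∀ f : ℕ → Ω, ∃ i j, i < j ∧ r (f i) (f j)

/-- All vertices of `G` have at most `D` edges. -/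
def MaxDegreeLE (D : ℕ) (G : MGraph) : Prop := ∀ v, {e | v ∈ G.ends e}.ncard ≤ D

/-- The labelled weak immersion theorem for graphs of bounded degree: if `r` is a well-quasi-order of
the set `Ω` of labels then the graphs of maximum degree at most `D` with vertices labelled by `Ω` are
well-quasi-ordered by weak immersions that do not decrease labels. -/
def LabelledWeakWQO : Prop :=
  ∀ (Ω : Type) (r : Ω → Ω → Prop), IsWqo r → ∀ (D : ℕ) (G : ℕ → MGraph) (φ : ∀ n, (G n).V → Ω),
    (∀ n, MaxDegreeLE D (G n)) →
      ∃ i j, i < j ∧ ∃ I : WeakImmersion (G i) (G j), ∀ v, r (φ i v) (φ j (I.η v))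

end Pool.Agent.W2411wi
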